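import Mathlib

namespace Pool.Agent.Results.MP_d302e1_nt.N11

/-- Expressions built from one constant with binary sums and products. -/
inductive Ex : Type
  | c : Ex
  | add : Ex → Ex → Ex
  | mul : Ex → Ex → Ex

/-- The number of copies of the constant. -/
def Ex.size : Ex → ℕ
  | .c => 1
  | .add a b => a.size + b.size
  | .mul a b => a.size + b.size

/-- The value when the constant is read as `l`. -/
def Ex.val (l : ℕ) : Ex → ℕ
  | .c => l
  | .add a b => a.val l + b.val l
  | .mul a b => a.val l * b.val l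

/-- The `l`-complexity: the least size of an `l`-expression with value `n`. -/
noncomputable def cx (l n : ℕ) : ℕ := sInf {s | ∃ e : Ex, e.val l = n ∧ e.size = s}

/-- The number of literal summands of the outermost sum, sums being read as associative. -/
def Ex.lits : Ex → ℕ
  | .c => 1
  | .add a b => a.lits + b.lits
  | .mul _ _ => 0

/-- No sum occurring in the expression has four or more literal summands. -/
def Ex.Reduced : Ex → Prop
  | .c => True
  | .add a b => a.Reduced ∧ b.Reduced ∧ a.lits + b.lits ≤ 3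
  | .mul a b => a.Reduced ∧ b.Reduced

/-- `1 + 1 + (1 + 1 + 1) (1 + 1 + 1)`. -/
def R : Ex := .add .c (.add .c (.mul (.add .c (.add .c .c)) (.add .c (.add .c .c))))

/-- Lower bounds for the complexity of `0, …, 11`. -/
def tab (n : ℕ) : ℕ := [0, 1, 2, 3, 4, 5, 5, 6, 6, 6, 7, 8].getD n 0

lemma tab_le (e : Ex) : 1 ≤ e.val 1 ∧ (e.val 1 ≤ 11 → tab (e.val 1) ≤ e.size) := by
  have h1 : ∀ a ≤ 11, ∀ b ≤ 11, tab (a + b) ≤ tab a + tab b ∧ tab (a * b) ≤ tab a + tab b := by
    decide
  induction e with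
  | c => simp [Ex.val, Ex.size, tab]
  | add a b iha ihb =>
    simp only [Ex.val, Ex.size]
    refine ⟨by omega, fun h => ?_⟩
    have := (h1 (a.val 1) (by omega) (b.val 1) (by omega)).1
    have := iha.2 (by omega)
    have := ihb.2 (by omega)
    omega
  | mul a b iha ihb =>
    simp only [Ex.val, Ex.size]
    refine ⟨Nat.mul_pos iha.1 ihb.1, fun h => ?_⟩
    have ha : a.val 1 ≤ 11 := le_trans (Nat.le_mul_of_pos_right _ ihb.1) h
    have hb : b.val 1 ≤ 11 := le_trans (Nat.le_mul_of_pos_left _ iha.1) h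
    have := (h1 _ ha _ hb).2
    have := iha.2 ha
    have := ihb.2 hb
    omega

lemma cx11 : cx 1 11 = 8 := by
  refine le_antisymm (Nat.sInf_le ⟨R, rfl, rfl⟩) (le_csInf ⟨8, R, rfl, rfl⟩ ?_)
  rintro s ⟨e, h1, rfl⟩
  have := (tab_le e).2 h1.le
  rw [h1] at this
  exact this

lemma cx40 : cx 2 40 ≤ 6 :=
  Nat.sInf_le ⟨.mul .c (.mul .c (.add .c (.mul .c (.mul .c .c)))), rfl, rfl⟩

lemma red : R.Reduced := by simp [R, Ex.Reduced, Ex.lits]

theorem result :
    (R.val 1 = 11 ∧ R.size = cx 1 11 ∧ R.Reduced ∧ R.val 2 = 40 ∧ cx 2 40 < cx 1 11) ∧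
    ¬ ∀ (n : ℕ) (e : Ex), 0 < n → e.val 1 = n → e.size = cx 1 n → e.Reduced →
      cx 2 (e.val 2) = cx 1 n := by
  have h := cx40
  refine ⟨⟨rfl, cx11.symm, red, rfl, by rw [cx11]; omega⟩, fun H => ?_⟩
  have h2 : cx 2 40 = cx 1 11 := H 11 R (by norm_num) rfl cx11.symm red
  rw [cx11] at h2
  omega

end Pool.Agent.Results.MP_d302e1_nt.N11
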